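import Pool.Agent.Q149.RD.Tr
set_option autoImplicit false

/-!
# Project RD: use of flatness over `A` (EPU)
-/

namespace Q149.RD

open Q32.RD

universe u

section

variable {I V : Type u} [CommRing V] {S : Sys I V} {W : Type u} [CommRing W] [Module V W]
  {D : BiDat S W}

/-- the element `(0, 0, e i)` -/
noncomputable def eps (D : BiDat S W) (i : I) : RA D :=
  ⟨Big.mk' D 0 0 (Finsupp.single i (S.e i)), by
    refine ⟨by simp, fun j => ?_⟩
    rw [Big.th_mk]
    by_cases h : i = j
    · subst h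
      rw [Finsupp.single_eq_same, S.idem]
    · rw [Finsupp.single_eq_of_ne (Ne.symm h), mul_zero]⟩

lemma prj_eps (i : I) : prj D (eps D i) = 0 := rfl

lemma prj_def (a : RA D) : prj D a = a.1.fs := rfl

lemma eps_mul (i : I) {a : RA D} (ha : prj D a = 0) : eps D i * a = 0 := by
  rw [prj_def] at ha
  apply Subtype.ext
  refine Big.ext ?_ ?_ ?_
  · show (0 : V) * a.1.fs = 0
    rw [zero_mul]
  · show D.L 0 * a.1.sn + 0 * D.R a.1.fs = 0
    rw [map_zero, zero_mul, zero_mul, add_zero]
  · show (0 : V) • a.1.th + a.1.fs • (Finsupp.single i (S.e i)) = 0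
    rw [ha, zero_smul, zero_smul, add_zero]

lemma eps_inc (i : I) (v : V) : eps D i * inc D v = inc D v * eps D i := by
  apply Subtype.ext
  refine Big.ext ?_ ?_ ?_
  · show (0 : V) * v = v * 0
    rw [zero_mul, mul_zero]
  · show D.L 0 * 0 + 0 * D.R v = D.L v * 0 + 0 * D.R 0
    rw [mul_zero, mul_zero, zero_mul, zero_mul]
  · show (0 : V) • (0 : I →₀ V) + v • (Finsupp.single i (S.e i)) =
      v • (Finsupp.single i (S.e i)) + (0 : V) • (0 : I →₀ V)
    rw [add_comm]

/-- the coefficient `th i` as an additive map -/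
lemma th_sum (i : I) {k : ℕ} (a : Fin k → RA D) :
    (∑ l, a l : RA D).1.th i = ∑ l, (a l).1.th i := by
  have h1 : ∀ s : Finset (Fin k), (∑ l ∈ s, a l : RA D).1.th i = ∑ l ∈ s, (a l).1.th i := by
    classical
    intro s
    induction s using Finset.induction_on with
    | empty => rfl
    | insert b s hb ih =>
      rw [Finset.sum_insert hb, Finset.sum_insert hb, ← ih]
      rfl
  exact h1 _

/-- the graph of the map `r` -/
def gra (D : BiDat S W) (i : I) (U : Type u) [AddCommGroup U] [Module (RA D) U] [Module V U] :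
    Submodule V (U × (U ⧸ ES D U)) :=
  Submodule.span V {w | ∃ a : RA D, prj D a = 0 ∧ ∃ x : U,
    w = (a • x, a.1.th i • (ES D U).mkQ x)}

lemma mkQ_smul {U : Type u} [AddCommGroup U] [Module (RA D) U] [Module V U]
    (hU : ∀ (v : V) (x : U), v • x = inc D v • x) (a : RA D) (x : U) :
    (ES D U).mkQ (a • x) = prj D a • (ES D U).mkQ x := by
  rw [← map_smul, Submodule.mkQ_apply, Submodule.mkQ_apply, Submodule.Quotient.eq]
  exact smul_sub_mem hU a x

lemma gra_fst {U : Type u} [AddCommGroup U] [Module (RA D) U] [Module V U]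
    (hU : ∀ (v : V) (x : U), v • x = inc D v • x) (hflat : IsFlat (RA D) U) (i : I) :
    ∀ w ∈ gra D i U, w.1 = 0 → w.2 = 0 := by
  intro w hw hw1
  unfold gra at hw
  rw [Submodule.mem_span_set'] at hw
  obtain ⟨k, f, g, hg⟩ := hw
  choose a ha x hx using fun l => (g l).2
  have hg1 : ∑ l, (inc D (f l) * a l) • x l = 0 := by
    rw [← hw1, ← hg, Prod.fst_sum]
    apply Finset.sum_congr rfl
    intro l _
    rw [Prod.smul_fst, hx, hU, mul_smul]
  have hg2 : w.2 = ∑ l, (inc D (f l) * a l).1.th i • (ES D U).mkQ (x l) := by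
    rw [← hg, Prod.snd_sum]
    apply Finset.sum_congr rfl
    intro l _
    rw [Prod.smul_snd, hx, smul_smul]
    congr 1
    show f l * (a l).1.th i = (f l • (a l).1.th + (a l).1.fs • (0 : I →₀ V)) i
    rw [smul_zero, add_zero, Finsupp.smul_apply, smul_eq_mul]
  obtain ⟨m, b, y, hy, hb⟩ := hflat k _ x hg1
  have h0 : ∀ l, (inc D (f l) * a l).1.fs = 0 := by
    intro l
    show f l * prj D (a l) = 0
    rw [ha, mul_zero]
  rw [hg2]
  have h1 : ∀ l, (inc D (f l) * a l).1.th i • (ES D U).mkQ (x l) =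
      ∑ j, ((inc D (f l) * a l * b l j).1.th i) • (ES D U).mkQ (y j) := by
    intro l
    rw [hy l, map_sum, Finset.smul_sum]
    apply Finset.sum_congr rfl
    intro j _
    rw [mkQ_smul hU, smul_smul]
    congr 1
    show _ = ((inc D (f l) * a l).1.fs • (b l j).1.th + (b l j).1.fs •
      (inc D (f l) * a l).1.th) i
    rw [h0, zero_smul, zero_add, Finsupp.smul_apply, smul_eq_mul, mul_comm]
    rfl
  rw [Finset.sum_congr rfl (fun l _ => h1 l), Finset.sum_comm]
  apply Finset.sum_eq_zero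
  intro j _
  rw [← Finset.sum_smul, ← th_sum, hb]
  show (0 : V) • _ = _
  rw [zero_smul]

end

/-- **EPU**. -/
theorem epu : S_BG.{u} → S_EPU.{u} := by
  intro hBG I V _ S W _ _ D U _ _ _ hU hflat hproj i
  set G := gra D i U with hG
  have hgraph := gra_fst hU hflat i
  set ρ := G.toLinearPMap with hρ
  have hρg : ρ.graph = G := Submodule.toLinearPMap_graph_eq G hgraph
  have hdom : ES D U ≤ ρ.domain := by
    refine Submodule.span_le.2 ?_
    rintro _ ⟨a, ha, x, rfl⟩
    have h1 : ((a • x, a.1.th i • (ES D U).mkQ x) : U × (U ⧸ ES D U)) ∈ ρ.graph := by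
      rw [hρg]
      exact Submodule.subset_span ⟨a, ha, x, rfl⟩
    exact LinearPMap.mem_domain_of_mem_graph h1
  have hker : ∀ x : LinearMap.ker (ES D U).mkQ, (x : U) ∈ ρ.domain := by
    rintro ⟨x, hx⟩
    apply hdom
    rw [Submodule.ker_mkQ] at hx
    exact hx
  -- the map `r`
  let r : LinearMap.ker (ES D U).mkQ →ₗ[V] (U ⧸ ES D U) :=
    ρ.toFun ∘ₗ (LinearMap.codRestrict ρ.domain (LinearMap.ker (ES D U).mkQ).subtype hker)
  -- the map `s`
  let s0 : U →ₗ[V] U :=
    { toFun := fun x => eps D i • x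
      map_add' := fun x y => smul_add _ _ _
      map_smul' := fun v x => by
        rw [RingHom.id_apply, hU, hU, smul_smul, smul_smul, eps_inc] }
  have hs0 : ∀ x, s0 x = eps D i • x := fun x => rfl
  have hs0k : ES D U ≤ LinearMap.ker s0 := by
    refine Submodule.span_le.2 ?_
    rintro _ ⟨a, ha, x, rfl⟩
    have h1 : s0 (a • x) = 0 := by
      rw [hs0, smul_smul, eps_mul i ha, zero_smul]
    exact h1
  let s : (U ⧸ ES D U) →ₗ[V] U := (ES D U).liftQ s0 hs0k
  have hs : ∀ y, s y ∈ LinearMap.ker (ES D U).mkQ := by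
    intro y
    obtain ⟨x, rfl⟩ := Submodule.mkQ_surjective _ y
    rw [Submodule.ker_mkQ]
    have h1 : s ((ES D U).mkQ x) = eps D i • x := by
      rw [Submodule.mkQ_apply]
      exact Submodule.liftQ_apply _ _ _
    rw [h1]
    exact smul_mem_ES (prj_eps i) x
  apply hBG V S.idem U (U ⧸ ES D U) (ES D U).mkQ s hs r (S.e i) hproj
    (Submodule.mkQ_surjective _)
  intro y
  obtain ⟨x, rfl⟩ := Submodule.mkQ_surjective _ y
  have h1 : s ((ES D U).mkQ x) = eps D i • x := by
    rw [Submodule.mkQ_apply]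
    exact Submodule.liftQ_apply _ _ _
  have h2 : ((eps D i • x, S.e i • (ES D U).mkQ x) : U × (U ⧸ ES D U)) ∈ ρ.graph := by
    rw [hρg]
    refine Submodule.subset_span ⟨eps D i, prj_eps i, x, ?_⟩
    have h3 : (eps D i).1.th i = S.e i := by
      show (Finsupp.single i (S.e i)) i = S.e i
      rw [Finsupp.single_eq_same]
    rw [h3]
  rw [LinearPMap.mem_graph_iff] at h2
  obtain ⟨z, hz1, hz2⟩ := h2
  simp only at hz1 hz2
  have h4 : r ⟨s ((ES D U).mkQ x), hs _⟩ = ρ z := by
    show ρ.toFun _ = ρ.toFun z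
    congr 1
    apply Subtype.ext
    rw [hz1]
    exact h1
  rw [h4, hz2]

end Q149.RD
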