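import Pool.Agent.Q32.RD.Stm
set_option autoImplicit false

/-!
# Project RD: transfer of splitting from `V` to `A` (TR)
-/

namespace Q149.RD

open Q32.RD

universe u

section

variable {I V : Type u} [CommRing V] {S : Sys I V} {W : Type u} [CommRing W] [Module V W]
  {D : BiDat S W}

lemma prj_inc (v : V) : prj D (inc D v) = v := rfl

/-- the elements of `ES` -/
lemma mem_ES {U : Type u} [AddCommGroup U] [Module (RA D) U] [Module V U]
    (hU : ∀ (v : V) (x : U), v • x = inc D v • x) {w : U} (hw : w ∈ ES D U) :
    ∃ (k : ℕ) (a : Fin k → RA D) (x : Fin k → U), (∀ l, prj D (a l) = 0) ∧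
      w = ∑ l, a l • x l := by
  unfold ES at hw
  rw [Submodule.mem_span_set'] at hw
  obtain ⟨k, f, g, hg⟩ := hw
  choose a ha x hx using fun l => (g l).2
  refine ⟨k, fun l => inc D (f l) * a l, x, fun l => ?_, ?_⟩
  · rw [map_mul, ha, mul_zero]
  · rw [← hg]
    apply Finset.sum_congr rfl
    intro l _
    rw [hx, hU, mul_smul]

lemma smul_mem_ES {U : Type u} [AddCommGroup U] [Module (RA D) U] [Module V U]
    {a : RA D} (ha : prj D a = 0) (x : U) : a • x ∈ ES D U :=
  Submodule.subset_span ⟨a, ha, x, rfl⟩

/-- modulo `ES` the ring acts through `V` -/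
lemma smul_sub_mem {U : Type u} [AddCommGroup U] [Module (RA D) U] [Module V U]
    (hU : ∀ (v : V) (x : U), v • x = inc D v • x) (a : RA D) (x : U) :
    a • x - prj D a • x ∈ ES D U := by
  rw [hU, ← sub_smul]
  apply smul_mem_ES
  rw [map_sub, prj_inc, sub_self]

end

/-- **TR** (transfer). -/
theorem tr : S_TR.{u} := by
  intro I V _ S W _ _ D U N _ _ _ _ _ _ hU hN hflat hspl E _ _ i p hi hp hip
  let _ : Module V E := Module.compHom E (inc D)
  have hE : ∀ (v : V) (x : E), v • x = inc D v • x := fun v x => rfl
  -- the linear maps over `V`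
  let iV : N →ₗ[V] E :=
    { toFun := i
      map_add' := map_add i
      map_smul' := fun v n => by
        rw [RingHom.id_apply, hE, ← map_smul i, hN, prj_inc] }
  let pV : E →ₗ[V] U :=
    { toFun := p
      map_add' := map_add p
      map_smul' := fun v w => by rw [RingHom.id_apply, hE, hU, map_smul] }
  have hiV : ∀ n, iV n = i n := fun n => rfl
  have hpV : ∀ w, pV w = p w := fun w => rfl
  -- the image of `ES`
  have hle : ES D E ≤ (ES D U).comap pV := by
    refine Submodule.span_le.2 ?_
    rintro _ ⟨a, ha, x, rfl⟩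
    have h1 : pV (a • x) ∈ ES D U := by
      rw [hpV, map_smul]
      exact smul_mem_ES ha _
    exact h1
  have hlift : ∀ u ∈ ES D U, ∃ w ∈ ES D E, p w = u := by
    intro u hu
    obtain ⟨k, a, x, ha, rfl⟩ := mem_ES hU hu
    choose w hw using fun l => hp (x l)
    refine ⟨∑ l, a l • w l, Submodule.sum_mem _ fun l _ => smul_mem_ES (ha l) _, ?_⟩
    rw [map_sum]
    apply Finset.sum_congr rfl
    intro l _
    rw [map_smul, hw]
  -- injectivity
  have hinj : ∀ n, i n ∈ ES D E → n = 0 := by
    intro n hn
    obtain ⟨k, a, w, ha, hw⟩ := mem_ES hE hn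
    have h0 : ∑ l, a l • p (w l) = 0 := by
      have h1 : p (i n) = 0 := by
        have : i n ∈ LinearMap.ker p := by rw [← hip]; exact ⟨n, rfl⟩
        exact this
      rw [hw, map_sum] at h1
      rw [← h1]
      apply Finset.sum_congr rfl
      intro l _
      rw [map_smul]
    obtain ⟨m, b, y, hy, hb⟩ := hflat k a (fun l => p (w l)) h0
    choose z hz using fun j => hp (y j)
    have hker : ∀ l, ∃ n', i n' = w l - ∑ j, b l j • z j := by
      intro l
      have h1 : w l - ∑ j, b l j • z j ∈ LinearMap.ker p := by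
        rw [LinearMap.mem_ker, map_sub, map_sum, sub_eq_zero]
        rw [show p (w l) = ∑ j, b l j • y j from hy l]
        apply Finset.sum_congr rfl
        intro j _
        rw [map_smul, hz]
      rw [← hip] at h1
      exact h1
    choose n' hn' using hker
    have h2 : i n = ∑ l, a l • (∑ j, b l j • z j) + ∑ l, a l • i (n' l) := by
      rw [hw, ← Finset.sum_add_distrib]
      apply Finset.sum_congr rfl
      intro l _
      rw [hn', ← smul_add]
      congr 1
      abel
    have h3 : ∑ l, a l • (∑ j, b l j • z j) = 0 := by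
      have h4 : ∑ l, a l • (∑ j, b l j • z j) = ∑ j, (∑ l, a l * b l j) • z j := by
        simp only [Finset.smul_sum, Finset.sum_smul, mul_smul]
        rw [Finset.sum_comm]
      rw [h4]
      apply Finset.sum_eq_zero
      intro j _
      rw [hb, zero_smul]
    have h5 : ∑ l, a l • i (n' l) = 0 := by
      apply Finset.sum_eq_zero
      intro l _
      rw [← map_smul i, hN, ha, zero_smul, map_zero]
    rw [h3, h5, add_zero] at h2
    exact hi (by rw [h2, map_zero])
  -- the extension over `V`
  obtain ⟨r, hr⟩ := hspl (E ⧸ ES D E) ((ES D E).mkQ ∘ₗ iV) (Submodule.mapQ _ _ pV hle)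
    (by
      rw [← LinearMap.ker_eq_bot, LinearMap.ker_eq_bot']
      intro n hn
      rw [LinearMap.comp_apply, Submodule.mkQ_apply, Submodule.Quotient.mk_eq_zero, hiV] at hn
      exact hinj n hn)
    (by
      intro y
      obtain ⟨u, rfl⟩ := Submodule.mkQ_surjective _ y
      obtain ⟨w, rfl⟩ := hp u
      exact ⟨Submodule.Quotient.mk w, by rw [Submodule.mapQ_apply, hpV]; rfl⟩)
    (by
      apply le_antisymm
      · rintro _ ⟨n, rfl⟩
        rw [LinearMap.mem_ker, LinearMap.comp_apply, Submodule.mkQ_apply, Submodule.mapQ_apply,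
          hpV, hiV]
        have h1 : p (i n) = 0 := by
          have : i n ∈ LinearMap.ker p := by rw [← hip]; exact ⟨n, rfl⟩
          exact this
        rw [h1, Submodule.Quotient.mk_zero]
      · intro y hy
        obtain ⟨w, rfl⟩ := Submodule.mkQ_surjective _ y
        rw [LinearMap.mem_ker, Submodule.mkQ_apply, Submodule.mapQ_apply,
          Submodule.Quotient.mk_eq_zero, hpV] at hy
        obtain ⟨w', hw', hpw⟩ := hlift _ hy
        have h1 : w - w' ∈ LinearMap.ker p := by
          rw [LinearMap.mem_ker, map_sub, hpw, sub_self]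
        rw [← hip] at h1
        obtain ⟨n, hn⟩ := h1
        refine ⟨n, ?_⟩
        rw [LinearMap.comp_apply, Submodule.mkQ_apply, Submodule.mkQ_apply, hiV, hn,
          Submodule.Quotient.eq, sub_sub_cancel_left]
        exact Submodule.neg_mem _ hw')
  refine ⟨
    { toFun := fun w => r ((ES D E).mkQ w)
      map_add' := fun x y => by rw [map_add, map_add]
      map_smul' := fun a w => ?_ }, fun n => hr n⟩
  have h1 : (ES D E).mkQ (a • w) = prj D a • (ES D E).mkQ w := by
    rw [← map_smul, Submodule.mkQ_apply, Submodule.mkQ_apply, Submodule.Quotient.eq]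
    exact smul_sub_mem hE a w
  rw [RingHom.id_apply, hN, h1, map_smul]

end Q149.RD
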