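import Pool.Agent.Q32.RD.Stm
set_option autoImplicit false

/-!
# Project RD: the flat test module (U0)
-/

namespace Q149.RD

open Q32.RD

universe u

section

variable {I V : Type u} [CommRing V] {S : Sys I V} {W : Type u} [CommRing W] [Module V W]

/-- the action -/
noncomputable def act (D : BiDat S W) (a : RA D) (w : V) : V := a.1.fs * w + D.η a.1.sn * S.c w

lemma c_eta_zero (D : BiDat S W) (a : RA D) : S.c (D.η a.1.sn) = 0 := by
  rw [D.c_eta, a.2.1, map_zero]

lemma c_c (S : Sys I V) (v : V) : S.c (S.c v) = S.c v := by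
  rcases S.c_val v with h | h
  · rw [h, map_zero]
  · rw [h, map_one]

/-- the test module -/
@[reducible] noncomputable def modV (D : BiDat S W) : Module (RA D) V where
  smul := act D
  one_smul w := by
    show (1 : V) * w + D.η 0 * S.c w = w
    rw [map_zero, zero_mul, add_zero, one_mul]
  mul_smul a b w := by
    show (a.1.fs * b.1.fs) * w + D.η (D.L a.1.fs * b.1.sn + a.1.sn * D.R b.1.fs) * S.c w =
      a.1.fs * (b.1.fs * w + D.η b.1.sn * S.c w) +
        D.η a.1.sn * S.c (b.1.fs * w + D.η b.1.sn * S.c w)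
    rw [map_add, map_mul, map_mul, D.eta_L, D.eta_R, map_add, map_mul, map_mul, c_eta_zero]
    ring
  smul_zero a := by
    show a.1.fs * 0 + D.η a.1.sn * S.c 0 = 0
    rw [map_zero, mul_zero, mul_zero, add_zero]
  smul_add a x y := by
    show a.1.fs * (x + y) + D.η a.1.sn * S.c (x + y) =
      (a.1.fs * x + D.η a.1.sn * S.c x) + (a.1.fs * y + D.η a.1.sn * S.c y)
    rw [map_add]
    ring
  add_smul a b w := by
    show (a.1.fs + b.1.fs) * w + D.η (a.1.sn + b.1.sn) * S.c w =
      (a.1.fs * w + D.η a.1.sn * S.c w) + (b.1.fs * w + D.η b.1.sn * S.c w)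
    rw [map_add]
    ring
  zero_smul w := by
    show (0 : V) * w + D.η 0 * S.c w = 0
    rw [map_zero, zero_mul, zero_mul, add_zero]

/-- the join of the supports -/
lemma exists_f (D : BiDat S W) (a : RA D) (ha : a.1.fs + D.η a.1.sn = 0) :
    ∃ f : V, S.c f = 0 ∧ a.1.fs * f = a.1.fs ∧ (∀ i, f * a.1.th i = a.1.th i) ∧
      (a.1.sn - D.L (D.η a.1.sn)) * D.R (1 - f) = 0 := by
  classical
  obtain ⟨g, hg, hg'⟩ := D.good a.1.sn
  set pr := ∏ j ∈ a.1.th.support, (1 - S.e j) with hpr
  have hcf : S.c a.1.fs = 0 := by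
    have h1 : a.1.fs = -D.η a.1.sn := eq_neg_of_add_eq_zero_left ha
    rw [h1, map_neg, c_eta_zero, neg_zero]
  have hcpr : S.c pr = 1 := by
    rw [hpr, map_prod]
    apply Finset.prod_eq_one
    intro j _
    rw [map_sub, map_one, S.c_e, sub_zero]
  refine ⟨1 - (1 - a.1.fs) * (1 - g) * pr, ?_, ?_, ?_, ?_⟩
  · rw [map_sub, map_mul, map_mul, map_sub, map_sub, map_one, hcf, hg, hcpr]
    ring
  · have h1 := S.idem a.1.fs
    have h2 : a.1.fs * (1 - (1 - a.1.fs) * (1 - g) * pr) =
        a.1.fs - (a.1.fs - a.1.fs * a.1.fs) * (1 - g) * pr := by ring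
    rw [h2, h1]
    ring
  · intro i
    by_cases hi : i ∈ a.1.th.support
    · have h1 : a.1.th i * pr = 0 := by
        rw [hpr, ← Finset.mul_prod_erase _ _ hi, ← mul_assoc]
        have h2 : a.1.th i * (1 - S.e i) = 0 := by
          have h3 := a.2.2 i
          rw [mul_sub, mul_one, mul_comm, h3, sub_self]
        rw [h2, zero_mul]
      have h2 : (1 - (1 - a.1.fs) * (1 - g) * pr) * a.1.th i =
          a.1.th i - (1 - a.1.fs) * (1 - g) * (a.1.th i * pr) := by ring
      rw [h2, h1, mul_zero, sub_zero]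
    · rw [Finsupp.notMem_support_iff] at hi
      rw [hi, mul_zero]
  · have h1 : (1 : V) - (1 - (1 - a.1.fs) * (1 - g) * pr) = (1 - g) * ((1 - a.1.fs) * pr) := by
      ring
    rw [h1, map_mul, ← mul_assoc, hg', zero_mul]

end

/-- **U0** (the test module). -/
theorem u0 : S_U0.{u} := by
  intro I V _ S W _ _ D
  refine ⟨modV D, fun a w => rfl, ?_⟩
  let _ : Module (RA D) V := modV D
  have hsm : ∀ (a : RA D) (w : V), a • w = a.1.fs * w + D.η a.1.sn * S.c w := fun a w => rfl
  intro n r x hrx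
  have hinc : ∀ v : V, inc D v • (1 : V) = v := by
    intro v
    rw [hsm]
    show v * 1 + D.η 0 * S.c 1 = v
    rw [map_zero, zero_mul, add_zero, mul_one]
  set a : RA D := ∑ l, r l * inc D (x l) with ha
  have ha1 : a • (1 : V) = 0 := by
    rw [ha, Finset.sum_smul, ← hrx]
    apply Finset.sum_congr rfl
    intro l _
    rw [mul_smul, hinc]
  have ha2 : a.1.fs + D.η a.1.sn = 0 := by
    rw [hsm, map_one, mul_one, mul_one] at ha1
    exact ha1
  obtain ⟨f, hf1, hf2, hf3, hf4⟩ := exists_f D a ha2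
  -- the element `u`
  let u : RA D := ⟨Big.mk' D f (D.L f * (D.R f - 1)) 0, by
    refine ⟨?_, fun i => by simp⟩
    rw [Big.sn_mk, map_mul, map_sub, map_one, D.mu_L, D.mu_R, mul_sub, S.idem, mul_one, sub_self]⟩
  have hu1 : u • (1 : V) = 0 := by
    rw [hsm]
    show f * 1 + D.η (D.L f * (D.R f - 1)) * S.c 1 = 0
    rw [map_mul, map_sub, map_one, map_one, D.eta_L, D.eta_R, hf1]
    ring
  have hau : a * u = a := by
    apply Subtype.ext
    refine Big.ext ?_ ?_ ?_
    · exact hf2
    · show D.L a.1.fs * (D.L f * (D.R f - 1)) + a.1.sn * D.R f = a.1.sn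
      have h1 : D.L a.1.fs * (D.L f * (D.R f - 1)) = D.L a.1.fs * (D.R f - 1) := by
        rw [← mul_assoc, ← map_mul, hf2]
      have h2 : a.1.fs = -D.η a.1.sn := eq_neg_of_add_eq_zero_left ha2
      rw [map_sub, map_one] at hf4
      rw [h1, h2, map_neg]
      linear_combination -hf4
    · show a.1.fs • (0 : I →₀ V) + f • a.1.th = a.1.th
      rw [smul_zero, zero_add]
      ext i
      rw [Finsupp.smul_apply, smul_eq_mul, hf3]
  refine ⟨1, fun l _ => inc D (x l) * (1 - u), fun _ => 1, fun l => ?_, fun _ => ?_⟩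
  · rw [Fin.sum_univ_one, mul_smul, sub_smul, hu1, one_smul, sub_zero, hinc]
  · have h1 : ∑ l, r l * (inc D (x l) * (1 - u)) = a * (1 - u) := by
      rw [ha, Finset.sum_mul]
      apply Finset.sum_congr rfl
      intro l _
      rw [mul_assoc]
    rw [h1, mul_sub, mul_one, hau, sub_self]

end Q149.RD
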